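import Pool.Agent.H19.SYA.TA

set_option autoImplicit false

namespace Pool.Agent.H69.SYA

open MvPolynomial Pool.Agent.H2.ST Pool.Agent.H15.TG Pool.Agent.H19.SYA

theorem NC_of_prime {k : Type} [Field k] {h : Pol k 2} (hh : Prime h) : NC h := by
  rintro ⟨c, hc⟩
  by_cases h0 : c = 0
  · rw [h0, map_zero] at hc
    exact hh.ne_zero hc
  · apply hh.not_unit
    rw [hc]
    exact (isUnit_iff_ne_zero.2 h0).map C

theorem pf_CLI (hND : T_ND) (hCHT : T_CHT) (hCHR : T_CHR) : T_CLI := by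
  intro k _ _ _ W H y w K hy hK r n h u v hh hhK hhW huK hvK huW hvW hhu
  obtain ⟨n', f, hf, hfK, hfW, hhf, -⟩ := hND k W K hy.toPGr hK r h hh hhK hhW
  have hG : Gp W h f r n' :=
    { pg := hh
      hg := hhW
      hf := hfW
      pa := hK.ps r h hhK hhW (NC_of_prime hh)
      pb := hK.ps n' f hfK hfW (NC_of_prime hf)
      lg := hK.ln h hhK
      lf := hK.ln f hfK
      gf := hK.cm h hhK f hfK
      nd := hhf }
  obtain ⟨L, _, _, Θ, v', wr, m, hC⟩ := hCHT k W H y w h f r n' hy hG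
  have key : ∀ x ∈ K, x ∈ W n → ¬ h ∣ x → ∃ (c : k) (j : ℤ), c ≠ 0 ∧
      Θ x = algebraMap k L c * v' 0 ^ j ∧ n = j * wr := by
    intro x hx hxW hhx
    refine hCHR k W H h f r n' L Θ v' wr m hC n x hxW ?_ ?_ hhx
    · rw [hK.cm h hhK x hx]; exact dvd_zero _
    · rw [hK.cm f hfK x hx]; exact dvd_zero _
  obtain ⟨c, j, hc, hΘ, hj⟩ := key u huK huW hhu
  by_cases hv : h ∣ v
  · refine ⟨0, ?_⟩
    rw [map_zero, zero_mul, sub_zero]
    exact hv
  · obtain ⟨c', j', hc', hΘ', hj'⟩ := key v hvK hvW hv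
    have hwr : (wr : ℤ) ≠ 0 := by
      have := hC.wp
      exact_mod_cast this.ne'
    have hjj : j = j' := mul_right_cancel₀ hwr (hj.symm.trans hj')
    refine ⟨c' / c, (hC.ker _).1 ?_⟩
    have e1 : Θ (C (c' / c)) = algebraMap k L (c' / c) := by
      rw [← MvPolynomial.algebraMap_eq, AlgHom.commutes]
    rw [map_sub, map_mul, e1, hΘ, hΘ', hjj, ← mul_assoc, ← map_mul, div_mul_cancel₀ _ hc, sub_self]

end Pool.Agent.H69.SYA
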