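import Pool.Agent.H19.SYA.TA

set_option autoImplicit false

namespace Pool.Agent.H69.SYA

open MvPolynomial Pool.Agent.H2.ST Pool.Agent.H15.TG Pool.Agent.H19.SYA

section
variable {k A : Type} [Field k] [CharZero k] [CommRing A] [Algebra k A]

theorem iter_zero (δ : Derivation k A A) (n : ℕ) : (δ : A → A)^[n] 0 = 0 := by
  induction n with
  | zero => rfl
  | succ n ih => rw [Function.iterate_succ_apply, map_zero, ih]

theorem iter_sub (δ : Derivation k A A) (n : ℕ) (x y : A) :
    (δ : A → A)^[n] (x - y) = (δ : A → A)^[n] x - (δ : A → A)^[n] y := by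
  induction n generalizing x y with
  | zero => rfl
  | succ n ih => rw [Function.iterate_succ_apply, map_sub, ih]; rfl

theorem iter_mul (δ : Derivation k A A) (f : A) (hf : δ f = 0) (n : ℕ) (x : A) :
    (δ : A → A)^[n] (f * x) = f * (δ : A → A)^[n] x := by
  induction n generalizing x with
  | zero => rfl
  | succ n ih =>
    rw [Function.iterate_succ_apply, Derivation.leibniz, hf, smul_zero, add_zero, smul_eq_mul, ih]
    rfl

theorem iter_pow (δ : Derivation k A A) (s f : A) (hs : δ s = f) (hf : δ f = 0) (n : ℕ) :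
    (δ : A → A)^[n] (s ^ n) = (n.factorial : A) * f ^ n := by
  have h : ∀ j m : ℕ, (δ : A → A)^[j] (s ^ (m + j)) =
      (((m + j).descFactorial j : ℕ) : A) * f ^ j * s ^ m := by
    intro j
    induction j with
    | zero => intro m; simp
    | succ j ih =>
      intro m
      rw [Function.iterate_succ_apply', show m + (j + 1) = (m + 1) + j by ring, ih (m + 1)]
      have h1 : δ f = 0 := hf
      have h2 : δ (((((m + 1) + j).descFactorial j : ℕ) : A) * f ^ j) = 0 := by
        rw [Derivation.leibniz, Derivation.leibniz_pow, h1]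
        simp
      rw [Derivation.leibniz, h2, smul_zero, add_zero, Derivation.leibniz_pow, hs]
      rw [show (m + 1) + j = (m + j) + 1 by ring]
      have h3 : ((m + j) + 1).descFactorial (j + 1) = (m + 1) * ((m + j) + 1).descFactorial j := by
        rw [Nat.descFactorial_succ]
        congr 1
        omega
      rw [h3]
      simp only [Nat.add_sub_cancel, smul_eq_mul, nsmul_eq_mul]
      push_cast
      ring
  have := h n 0
  rw [zero_add, Nat.descFactorial_self, pow_zero, mul_one] at this
  exact this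

theorem nil_mem (M P : Subalgebra k A) (δ : Derivation k A A) (s f : A) (hs : δ s = f)
    (hf : δ f = 0) (hsM : s ∈ M) (hsP : s ∈ P) (hfP : f ∈ P) (hδ : ∀ x ∈ P, δ x ∈ P)
    (h0 : ∀ x ∈ P, δ x = 0 → x ∈ M) (hc : ∀ x, f * x ∈ M → x ∈ M) :
    ∀ (n : ℕ) (G : A), G ∈ P → (δ : A → A)^[n] G = 0 → G ∈ M := by
  have hit : ∀ (n : ℕ), ∀ x ∈ P, (δ : A → A)^[n] x ∈ P := by
    intro n
    induction n with
    | zero => intro x hx; exact hx
    | succ n ih =>
      intro x hx
      rw [Function.iterate_succ_apply']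
      exact hδ _ (ih x hx)
  have hcn : ∀ (n : ℕ) x, f ^ n * x ∈ M → x ∈ M := by
    intro n
    induction n with
    | zero => intro x hx; rwa [pow_zero, one_mul] at hx
    | succ n ih =>
      intro x hx
      refine ih x (hc _ ?_)
      rwa [← mul_assoc, ← pow_succ']
  intro n
  induction n with
  | zero =>
    intro G _ hG
    have : G = 0 := hG
    rw [this]
    exact M.zero_mem
  | succ n ih =>
    intro G hGP hG
    set c := (δ : A → A)^[n] G with hcdef
    have hδc : δ c = 0 := by
      rw [hcdef, ← Function.iterate_succ_apply' (δ : A → A)]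
      exact hG
    have hcP : c ∈ P := hit n G hGP
    have hcM : c ∈ M := h0 c hcP hδc
    have hfa : (n.factorial : k) ≠ 0 := by exact_mod_cast n.factorial_ne_zero
    have h1 : (δ : A → A)^[n] (f ^ n * G - (algebraMap k A (n.factorial : k)⁻¹) * (c * s ^ n)) =
        0 := by
      have hfn : δ (f ^ n) = 0 := by rw [Derivation.leibniz_pow, hf]; simp
      rw [iter_sub, iter_mul δ (f ^ n) hfn, iter_mul δ _ (Derivation.map_algebraMap δ _),
        iter_mul δ c hδc, iter_pow δ s f hs hf]
      rw [← hcdef]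
      have e1 : algebraMap k A (n.factorial : k)⁻¹ * (n.factorial : A) = 1 := by
        have : (n.factorial : A) = algebraMap k A (n.factorial : k) := by simp
        rw [this, ← map_mul, inv_mul_cancel₀ hfa, map_one]
      calc f ^ n * c - algebraMap k A (n.factorial : k)⁻¹ * (c * ((n.factorial : A) * f ^ n)) =
          f ^ n * c - (algebraMap k A (n.factorial : k)⁻¹ * (n.factorial : A)) * (c * f ^ n) := by
            ring
        _ = 0 := by rw [e1]; ring
    have h2 : f ^ n * G - (algebraMap k A (n.factorial : k)⁻¹) * (c * s ^ n) ∈ M := by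
      refine ih _ ?_ h1
      exact P.sub_mem (P.mul_mem (P.pow_mem hfP n) hGP)
        (P.mul_mem (P.algebraMap_mem _) (P.mul_mem hcP (P.pow_mem hsP n)))
    have h3 : f ^ n * G ∈ M := by
      have := M.add_mem h2 (M.mul_mem (M.algebraMap_mem (n.factorial : k)⁻¹)
        (M.mul_mem hcM (M.pow_mem hsM n)))
      rwa [sub_add_cancel] at this
    exact hcn n G h3

/-- elements which are in `B` after multiplication with a power of `d` -/
def Loc (B : Subalgebra k A) (d : A) (hd : d ∈ B) : Subalgebra k A where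
  carrier := {x | ∃ N : ℕ, d ^ N * x ∈ B}
  add_mem' := by
    rintro x y ⟨N, hN⟩ ⟨M, hM⟩
    refine ⟨N + M, ?_⟩
    have := B.add_mem (B.mul_mem (B.pow_mem hd M) hN) (B.mul_mem (B.pow_mem hd N) hM)
    have e : d ^ (N + M) * (x + y) = d ^ M * (d ^ N * x) + d ^ N * (d ^ M * y) := by ring
    rwa [e]
  mul_mem' := by
    rintro x y ⟨N, hN⟩ ⟨M, hM⟩
    refine ⟨N + M, ?_⟩
    have := B.mul_mem hN hM
    have e : d ^ (N + M) * (x * y) = d ^ N * x * (d ^ M * y) := by ring
    rwa [e]
  algebraMap_mem' := by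
    intro r
    exact ⟨0, by rw [pow_zero, one_mul]; exact B.algebraMap_mem r⟩

theorem mem_Loc {B : Subalgebra k A} {d : A} {hd : d ∈ B} {x : A} :
    x ∈ Loc B d hd ↔ ∃ N : ℕ, d ^ N * x ∈ B := Iff.rfl

theorem mem_Loc_of {B : Subalgebra k A} {d : A} {hd : d ∈ B} {x : A} (hx : x ∈ B) :
    x ∈ Loc B d hd := ⟨0, by rw [pow_zero, one_mul]; exact hx⟩

theorem Loc_cancel {B : Subalgebra k A} {d a b : A} {hd : d ∈ B} (hab : d = b * a) (hb : b ∈ B)
    {x : A} (hx : a * x ∈ Loc B d hd) : x ∈ Loc B d hd := by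
  obtain ⟨N, hN⟩ := hx
  refine ⟨N + 1, ?_⟩
  have := B.mul_mem hb hN
  have e : d ^ (N + 1) * x = b * (d ^ N * (a * x)) := by
    calc d ^ (N + 1) * x = d ^ N * x * d := by ring
      _ = d ^ N * x * (b * a) := by rw [← hab]
      _ = b * (d ^ N * (a * x)) := by ring
  rwa [e]

end

theorem pf_GN0 : T_GN0 := by
  intro k _ _ _ W H y w p q s α β n hy hc hs F
  set f := br q s with hfdef
  have hpf : br p f = 0 := by
    rw [hfdef, jac, hc.pq, hs.ps, zero_br, br_zero, add_zero]
  have hqf : br q f = 0 := hs.qq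
  set B := Algebra.adjoin k ({g : Pol k 2 | br p g = 0 ∧ br q g = 0} ∪ {H, s}) with hB
  have hZ : ∀ g : Pol k 2, br p g = 0 → br q g = 0 → g ∈ B := by
    intro g h1 h2
    exact Algebra.subset_adjoin (Or.inl ⟨h1, h2⟩)
  have hHB : H ∈ B := Algebra.subset_adjoin (Or.inr (Or.inl rfl))
  have hsB : s ∈ B := Algebra.subset_adjoin (Or.inr (Or.inr rfl))
  have hqp : br q p = 0 := by rw [br_anti, hc.pq, neg_zero]
  have hpB : p ∈ B := hZ p (br_self p) hqp
  have hfB : f ∈ B := hZ f hpf hqf
  have hd : p * f ∈ B := B.mul_mem hpB hfB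
  have h1 : ∀ G : Pol k 2, br p G = 0 → G ∈ Loc B (p * f) hd := by
    intro G hG
    obtain ⟨N, hN⟩ := hc.lq G
    refine nil_mem (Loc B (p * f) hd) (Cen ({p} : Set (Pol k 2))) (ad q) s f rfl hqf
      (mem_Loc_of hsB) ?_ ?_ ?_ ?_ ?_ N G ?_ hN
    · rw [mem_Cen]; intro g hg
      rw [Set.mem_singleton_iff.1 hg, br_anti, hs.ps, neg_zero]
    · rw [mem_Cen]; intro g hg
      rw [Set.mem_singleton_iff.1 hg, br_anti, hpf, neg_zero]
    · intro x hx
      rw [mem_Cen] at hx ⊢
      intro g hg
      have h2 : br p x = 0 := by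
        have := hx p rfl
        rw [br_anti, this, neg_zero]
      rw [Set.mem_singleton_iff.1 hg, ad_apply, br_anti, jac, hc.pq, h2, zero_br, br_zero,
        add_zero, neg_zero]
    · intro x hx hx0
      rw [mem_Cen] at hx
      have h2 : br p x = 0 := by
        have := hx p rfl
        rw [br_anti, this, neg_zero]
      exact mem_Loc_of (hZ x h2 hx0)
    · intro x hx
      exact Loc_cancel rfl hpB hx
    · rw [mem_Cen]; intro g hg
      rw [Set.mem_singleton_iff.1 hg, br_anti, hG, neg_zero]
  obtain ⟨N, hN⟩ := hc.lp F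
  have hα : (α : k) ≠ 0 := by
    have := hc.pa
    exact_mod_cast this.ne'
  have hpH : ad p H = (α : k) • p := hy.HE α p hc.hp
  have h2 : F ∈ Loc B (p * f) hd := by
    refine nil_mem (Loc B (p * f) hd) ⊤ (ad p) H ((α : k) • p) hpH ?_
      (mem_Loc_of hHB) trivial trivial (fun _ _ => trivial) ?_ ?_ N F trivial hN
    · rw [ad_apply, br_smul, br_self, smul_zero]
    · intro x _ hx0
      exact h1 x hx0
    · intro x hx
      have h3 : p * x ∈ Loc B (p * f) hd := by
        have := (Loc B (p * f) hd).smul_mem hx ((α : k)⁻¹)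
        rwa [smul_mul_assoc, smul_smul, inv_mul_cancel₀ hα, one_smul] at this
      exact Loc_cancel (mul_comm _ _) hfB h3
  exact h2

end Pool.Agent.H69.SYA
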