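import Pool.Agent.H19.SYA.TB

set_option autoImplicit false

namespace Pool.Agent.H69.SYA

open MvPolynomial Pool.Agent.H2.ST Pool.Agent.H15.TG Pool.Agent.H19.SYA

/-- the quotient of `ES * X1 ^ m` by `X0` if `w K1 < k1` -/
noncomputable def QQ (k : Type) [Field k] (α β : ℤ) (k1 w m K1 : ℕ) (c : ℕ → k) (κ : k) :
    MvPolynomial (Fin 4) k :=
  ∑ K ∈ Finset.Icc 1 K1, C (c K) * X 0 ^ (k1 - w * K - 1) * X 1 ^ (α.toNat * K) +
    X 0 ^ (k1 - 1) * (C ((β : k)⁻¹) * (X 2 + C κ) + X 0 * X 3 * X 1 ^ m)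

theorem xx_ne (k : Type) [Field k] (i : Fin 4) : xx k i ≠ 0 := by
  unfold xx
  intro h
  have := (IsFractionRing.injective (MvPolynomial (Fin 4) k) (RF k 4))
    (h.trans (map_zero _).symm)
  exact MvPolynomial.X_ne_zero i this

theorem aC (k : Type) [Field k] (c : k) :
    algebraMap (MvPolynomial (Fin 4) k) (RF k 4) (C c) = algebraMap k (RF k 4) c := by
  rw [IsScalarTower.algebraMap_apply k (MvPolynomial (Fin 4) k) (RF k 4)]
  rfl

theorem ES_eq (k : Type) [Field k] [CharZero k] (α β : ℤ) (k1 w m K1 : ℕ) (c : ℕ → k) (κ : k)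
    (hα : 0 < α) (hβ : 0 < β) (hk : w * K1 < k1) :
    ES k α β k1 0 w m K1 c κ * xx k 1 ^ m =
      algebraMap _ (RF k 4) (X 0 * QQ k α β k1 w m K1 c κ) := by
  have h0 := xx_ne k 0
  have h1 := xx_ne k 1
  have hβ0 : algebraMap k (RF k 4) (β : k) ≠ 0 := by
    intro h
    have h2 : (β : k) = 0 := (algebraMap k (RF k 4)).injective (h.trans (map_zero _).symm)
    have h3 : β = 0 := by exact_mod_cast h2
    omega
  have hx : ∀ i : Fin 4, algebraMap (MvPolynomial (Fin 4) k) (RF k 4) (X i) = xx k i :=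
    fun i => rfl
  unfold ES QQ
  simp only [map_mul, map_add, map_sum, map_pow, aC, hx]
  rw [mul_zero, pow_zero, mul_one]
  have hsum : xx k (0 : Fin 4) ^ k1 * (∑ K ∈ Finset.Icc 1 K1, algebraMap k (RF k 4) (c K) *
      xx k (0 : Fin 4) ^ (-((w * K : ℕ) : ℤ)) * xx k (1 : Fin 4) ^ (α * K - m)) *
      xx k (1 : Fin 4) ^ m =
      xx k (0 : Fin 4) * ∑ K ∈ Finset.Icc 1 K1, algebraMap k (RF k 4) (c K) *
        xx k (0 : Fin 4) ^ (k1 - w * K - 1) * xx k (1 : Fin 4) ^ (α.toNat * K) := by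
    rw [Finset.mul_sum, Finset.sum_mul, Finset.mul_sum]
    refine Finset.sum_congr rfl fun K hK => ?_
    have hK1 := Finset.mem_Icc.1 hK
    have hwK : w * K < k1 := lt_of_le_of_lt (Nat.mul_le_mul_left w hK1.2) hk
    have e1 : xx k (0 : Fin 4) ^ k1 * xx k (0 : Fin 4) ^ (-((w * K : ℕ) : ℤ)) =
        xx k (0 : Fin 4) * xx k (0 : Fin 4) ^ (k1 - w * K - 1) := by
      rw [← zpow_natCast, ← zpow_add₀ h0, ← pow_succ', ← zpow_natCast]
      congr 1
      omega
    have e2 : xx k (1 : Fin 4) ^ (α * K - m) * xx k (1 : Fin 4) ^ m =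
        xx k (1 : Fin 4) ^ (α.toNat * K) := by
      rw [← zpow_natCast (xx k (1 : Fin 4)) m, ← zpow_add₀ h1, ← zpow_natCast]
      congr 1
      have : (α.toNat : ℤ) = α := Int.toNat_of_nonneg hα.le
      push_cast
      rw [this]
      ring
    calc xx k (0 : Fin 4) ^ k1 * (algebraMap k (RF k 4) (c K) *
        xx k (0 : Fin 4) ^ (-((w * K : ℕ) : ℤ)) *
        xx k (1 : Fin 4) ^ (α * K - m)) * xx k (1 : Fin 4) ^ m =
        algebraMap k (RF k 4) (c K) *
          (xx k (0 : Fin 4) ^ k1 * xx k (0 : Fin 4) ^ (-((w * K : ℕ) : ℤ))) *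
          (xx k (1 : Fin 4) ^ (α * K - m) * xx k (1 : Fin 4) ^ m) := by ring
      _ = _ := by rw [e1, e2]; ring
  have hrest : xx k (0 : Fin 4) ^ k1 * ((xx k (2 : Fin 4) + algebraMap k (RF k 4) κ) /
      (algebraMap k (RF k 4) (β : k) * xx k (1 : Fin 4) ^ m) +
      xx k (0 : Fin 4) * xx k (3 : Fin 4)) * xx k (1 : Fin 4) ^ m =
      xx k (0 : Fin 4) * (xx k (0 : Fin 4) ^ (k1 - 1) * (algebraMap k (RF k 4) ((β : k)⁻¹) *
        (xx k (2 : Fin 4) + algebraMap k (RF k 4) κ) +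
        xx k (0 : Fin 4) * xx k (3 : Fin 4) * xx k (1 : Fin 4) ^ m)) := by
    have e3 : xx k (0 : Fin 4) ^ k1 = xx k (0 : Fin 4) * xx k (0 : Fin 4) ^ (k1 - 1) := by
      rw [← pow_succ']
      congr 1
      omega
    have e4 : algebraMap k (RF k 4) ((β : k)⁻¹) = (algebraMap k (RF k 4) (β : k))⁻¹ := map_inv₀ _ _
    rw [e3, e4]
    field_simp
  rw [mul_add (xx k (0 : Fin 4)), ← hsum, ← hrest]
  ring

theorem X0_dvd (k : Type) [Field k] (G Q : MvPolynomial (Fin 4) k) (a : ℕ)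
    (h : G * X 1 ^ a = X 0 * Q) : (X 0 : MvPolynomial (Fin 4) k) ∣ G := by
  have hp : Prime (X 0 : MvPolynomial (Fin 4) k) := MvPolynomial.X_prime
  have h1 : (X 0 : MvPolynomial (Fin 4) k) ∣ G * X 1 ^ a := ⟨Q, h⟩
  rcases hp.dvd_or_dvd h1 with h2 | h2
  · exact h2
  · exfalso
    have h3 := hp.dvd_of_dvd_pow h2
    rw [MvPolynomial.X_dvd_X] at h3
    exact absurd h3 (by decide)

theorem pf_K1E (hINE : T_INE) (hEXX : T_EXX) (hARI : T_ARI) : T_K1E := by
  intro k _ _ _ W H y wy p q S α β k1 L _ _ Θ v w m n c hy hM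
  have hch := hM.ch
  have hPr := hM.toPr
  obtain ⟨K1, c', κ, ζ, hE⟩ := hEXX k W H y wy p q S α β k1 0 L Θ v w m hy hPr hch
  have hα : 0 < α := hPr.pa
  have hβ : 0 < β := hPr.pb
  have hw : 0 < w := hch.wp
  have hm : 0 < m := hch.mp
  have hmn : ¬ m ∣ n := hM.nm
  have hm2 : 2 ≤ m := by
    by_contra hc
    have : m = 1 := by omega
    exact hmn (this ▸ one_dvd n)
  have hβm : β = m * w := hch.wf
  have hcm : IsCoprime α (m : ℤ) := by
    have := hPr.cop
    rw [hβm] at this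
    exact this.of_mul_right_left
  have hwS := hM.wS
  have hv0 : v 0 ≠ 0 := hch.ind.ne_zero 0
  have hk1 : w * K1 = k1 := by
    rcases lt_or_eq_of_le hE.pole with hlt | heq
    · exfalso
      obtain ⟨M, G, hG1, hG2⟩ := hE.val S 0 (X 3) (by simp)
      have e1 : aeval ![xx k 0, xx k 1 ^ m, xx k 2, ES k α β k1 0 w m K1 c' κ]
          (X 3 : MvPolynomial (Fin 4) k) = ES k α β k1 0 w m K1 c' κ := by
        rw [aeval_X]; rfl
      rw [e1, pow_zero, one_mul] at hG1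
      have hES := ES_eq k α β k1 w m K1 c' κ hα hβ hlt
      have h2 : algebraMap _ (RF k 4) (G * X 1 ^ m) =
          algebraMap _ (RF k 4) (X 0 * (QQ k α β k1 w m K1 c' κ * X 1 ^ M)) := by
        have e5 : algebraMap _ (RF k 4) (G * X 1 ^ m) =
            algebraMap _ (RF k 4) G * xx k 1 ^ m := by
          rw [map_mul, map_pow]; rfl
        have e6 : algebraMap _ (RF k 4) (X 0 * (QQ k α β k1 w m K1 c' κ * X 1 ^ M)) =
            algebraMap _ (RF k 4) (X 0 * QQ k α β k1 w m K1 c' κ) * xx k 1 ^ M := by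
          rw [← mul_assoc, map_mul _ (X 0 * QQ k α β k1 w m K1 c' κ), map_pow]; rfl
        rw [e5, e6, ← hG1, ← hES]
        ring
      have h3 := (IsFractionRing.injective (MvPolynomial (Fin 4) k) (RF k 4)) h2
      obtain ⟨G', hG'⟩ := X0_dvd k G _ m h3
      rw [hG', map_mul, aeval_X] at hG2
      have e7 : (![0, v 0, v 1, ζ] : Fin 4 → L) 0 = 0 := rfl
      rw [e7, zero_mul, hM.tS] at hG2
      have h4 : algebraMap k L c ≠ 0 := by
        intro h
        exact hM.c0 ((algebraMap k L).injective (h.trans (map_zero _).symm))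
      exact (mul_ne_zero (mul_ne_zero h4 (pow_ne_zero _ hv0)) (pow_ne_zero _ hv0)) hG2
    · exact heq
  obtain ⟨hK1, hin⟩ := hINE k W H y wy p q S α β k1 L Θ v w m K1 c' κ ζ hy hM.toPP hch hE hm2
  have hn : (n : ℤ) = α * K1 - m := by
    have hw0 : (w : ℤ) ≠ 0 := by exact_mod_cast hw.ne'
    apply mul_right_cancel₀ hw0
    rw [hwS, ← hk1, hβm]
    push_cast
    ring
  obtain ⟨h1, h2, h3⟩ := hARI α w m n K1 hα hw hm hM.lt hmn hcm hK1 hn hin
  subst h1
  refine ⟨by omega, ?_, ?_, h2, h3⟩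
  · rw [hn]; push_cast; ring
  · have h5 : α = n + m := by rw [hn]; push_cast; ring
    rw [h5] at hcm
    have h6 : IsCoprime (n : ℤ) (m : ℤ) := by
      have := hcm.add_mul_right_left (-1)
      have e8 : (n : ℤ) + m + -1 * m = n := by ring
      rwa [e8] at this
    exact (Nat.isCoprime_iff_coprime.1 h6).symm

end Pool.Agent.H69.SYA
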