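import Pool.Agent.H19.SYA.TB

set_option autoImplicit false

namespace Pool.Agent.H69.SYA

open MvPolynomial Pool.Agent.H2.ST Pool.Agent.H15.TG Pool.Agent.H19.SYA

theorem ai_of_prime {k : Type} [Field k] (W : ℤ → Submodule k (Pol k 2)) (h : Gr W)
    (p q : Pol k 2) (α β : ℤ) (hp : Prime p) (hpW : p ∈ W α) (hqW : q ∈ W β) (hβ : 0 < β)
    (hpq : ¬ p ∣ q) : AlgebraicIndependent k ![p, q] := by
  classical
  rw [algebraicIndependent_iff]
  intro P hP
  by_contra hne
  obtain ⟨m0, hm0⟩ := MvPolynomial.support_nonempty.2 hne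
  let wt : (Fin 2 →₀ ℕ) → ℤ := fun m => m 0 * α + m 1 * β
  let tm : (Fin 2 →₀ ℕ) → Pol k 2 := fun m => C (coeff m P) * (p ^ m 0 * q ^ m 1)
  have htm : ∀ m, tm m ∈ W (wt m) := by
    intro m
    have h1 : p ^ m 0 * q ^ m 1 ∈ W (m 0 • α + m 1 • β) :=
      h.mul _ _ _ _ (pow_mem_gr h hpW _) (pow_mem_gr h hqW _)
    have h2 : tm m = coeff m P • (p ^ m 0 * q ^ m 1) := by
      rw [MvPolynomial.smul_eq_C_mul]
    rw [h2]
    have h3 : wt m = m 0 • α + m 1 • β := by
      simp only [wt, nsmul_eq_mul]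
    rw [h3]
    exact (W _).smul_mem _ h1
  have hsum : aeval ![p, q] P = ∑ m ∈ P.support, tm m := by
    rw [MvPolynomial.aeval_def, MvPolynomial.eval₂_eq']
    refine Finset.sum_congr rfl fun m _ => ?_
    simp only [tm, Fin.prod_univ_two]
    rfl
  let T := P.support.filter fun m => wt m = wt m0
  have hT0 : ∑ m ∈ T, tm m = 0 := by
    have h1 : cmp h (aeval ![p, q] P) (wt m0) = ∑ m ∈ T, tm m := by
      rw [hsum, map_sum, Finsupp.finsetSum_apply, Finset.sum_filter]
      refine Finset.sum_congr rfl fun m _ => ?_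
      rw [cmp_of_mem h (htm m), Finsupp.single_apply]
    rw [← h1, hP, map_zero, Finsupp.zero_apply]
  have hTne : T.Nonempty := ⟨m0, Finset.mem_filter.2 ⟨hm0, rfl⟩⟩
  obtain ⟨m1, hm1, hmin⟩ := T.exists_min_image (fun m => m 0) hTne
  have hgt : ∀ m ∈ T.erase m1, m1 0 + 1 ≤ m 0 := by
    intro m hm
    obtain ⟨hne1, hmT⟩ := Finset.mem_erase.1 hm
    rcases lt_or_eq_of_le (hmin m hmT) with hl | he
    · exact hl
    · exfalso
      apply hne1
      have w1 : (m 0 : ℤ) * α + m 1 * β = wt m0 := (Finset.mem_filter.1 hmT).2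
      have w2 : (m1 0 : ℤ) * α + m1 1 * β = wt m0 := (Finset.mem_filter.1 hm1).2
      have w3 : (m 1 : ℤ) * β = m1 1 * β := by
        have : (m1 0 : ℤ) = m 0 := by exact_mod_cast he
        rw [this] at w2
        linarith
      have w4 : (m 1 : ℤ) = m1 1 := mul_right_cancel₀ hβ.ne' w3
      ext i
      fin_cases i
      · exact he.symm
      · exact_mod_cast w4
  have hsplit : tm m1 + ∑ m ∈ T.erase m1, tm m = 0 := by
    rw [Finset.add_sum_erase T tm hm1]; exact hT0
  have hdvd : p ^ (m1 0 + 1) ∣ ∑ m ∈ T.erase m1, tm m := by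
    refine Finset.dvd_sum fun m hm => ?_
    exact dvd_mul_of_dvd_right (dvd_mul_of_dvd_left (pow_dvd_pow p (hgt m hm)) _) _
  have hdvd1 : p ^ (m1 0 + 1) ∣ tm m1 := by
    have : tm m1 = - ∑ m ∈ T.erase m1, tm m := eq_neg_of_add_eq_zero_left hsplit
    rw [this]
    exact (dvd_neg).2 hdvd
  have hc : coeff m1 P ≠ 0 := by
    have := (Finset.mem_filter.1 hm1).1
    exact MvPolynomial.mem_support_iff.1 this
  have h5 : tm m1 = p ^ m1 0 * (C (coeff m1 P) * q ^ m1 1) := by
    simp only [tm]; ring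
  rw [h5, pow_succ] at hdvd1
  have h6 : p ∣ C (coeff m1 P) * q ^ m1 1 :=
    (mul_dvd_mul_iff_left (pow_ne_zero _ hp.ne_zero)).1 hdvd1
  rcases hp.dvd_or_dvd h6 with h7 | h7
  · apply hp.not_unit
    exact isUnit_of_dvd_unit h7 ((isUnit_iff_ne_zero.2 hc).map C)
  · exact hpq (hp.dvd_of_dvd_pow h7)

theorem pf_PAI (hAI1 : T_AI1) : T_PAI := by
  intro k _ _ _ W H y w p q S α β k1 l1 hy hP
  have hpq := ai_of_prime W hy.toGr p q α β hP.pg hP.hg hP.hf hP.pb hP.nd
  have hqp : br q p = 0 := by rw [br_anti, hP.gf, neg_zero]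
  have hbot : (⊥ : Ideal (Pol k 2)).IsPrime := Ideal.isPrime_bot
  have hI := hAI1 k (Pol k 2) (Fin 2) (Fin 2) ⊥ ![p, q] ![H, S] ![ad p, ad q] hbot
    (by
      intro i x hx
      rw [Ideal.mem_bot] at hx ⊢
      rw [hx, map_zero])
    (by
      intro i j
      rw [Ideal.mem_bot]
      fin_cases i <;> fin_cases j <;> simp [ad_apply, br_self, hP.gf, hqp])
    (by
      rw [Ideal.mem_bot, Matrix.det_fin_two]
      have e1 : br p H = (α : k) • p := hy.HE α p hP.hg
      simp only [Matrix.of_apply, Matrix.cons_val_zero, Matrix.cons_val_one,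
        ad_apply, hP.pS, hP.qS, e1, zero_mul, sub_zero]
      refine mul_ne_zero (smul_ne_zero ?_ hP.pg.ne_zero) (mul_ne_zero
        (pow_ne_zero _ hP.pg.ne_zero) (pow_ne_zero _ ?_))
      · have := hP.pa
        exact_mod_cast this.ne'
      · rintro rfl
        exact hP.nd (dvd_zero p))
    (by
      intro P hPP
      exact (algebraicIndependent_iff.1 hpq) P ((Ideal.mem_bot).1 hPP))
  have hA : AlgebraicIndependent k (Sum.elim ![p, q] ![H, S]) := by
    rw [algebraicIndependent_iff]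
    intro P hPP
    exact hI P (by rw [Ideal.mem_bot]; exact hPP)
  have h2 := hA.comp (finSumFinEquiv (m := 2) (n := 2)).symm (Equiv.injective _)
  have h3 : (Sum.elim ![p, q] ![H, S]) ∘ (finSumFinEquiv (m := 2) (n := 2)).symm =
      ![p, q, H, S] := by
    funext i
    fin_cases i <;> rfl
  rw [h3] at h2
  exact h2

end Pool.Agent.H69.SYA
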