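import Pool.Agent.H19.SYA.TA

set_option autoImplicit false

namespace Pool.Agent.H69.SYA

open MvPolynomial Pool.Agent.H2.ST Pool.Agent.H15.TG Pool.Agent.H19.SYA

section
variable {k A : Type} [Field k] [CommRing A] [Algebra k A] {W : ℤ → Submodule k A}

/-- elements all of whose components have weight divisible by `r` -/
def BB (h : Gr W) (r : ℤ) : Subalgebra k A where
  carrier := {x | ∀ m, ¬ r ∣ m → cmp h x m = 0}
  add_mem' := by
    intro a b ha hb m hm
    rw [map_add, Finsupp.add_apply, ha m hm, hb m hm, add_zero]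
  mul_mem' := by
    intro a b ha hb m hm
    have h1 : a * b = ∑ i ∈ (cmp h a).support, ∑ j ∈ (cmp h b).support,
        (cmp h a i) * (cmp h b j) := by
      conv_lhs => rw [← cmp_sum h a, ← cmp_sum h b]
      unfold Finsupp.sum
      rw [Finset.sum_mul_sum]
    rw [h1, map_sum, Finsupp.finsetSum_apply]
    refine Finset.sum_eq_zero fun i hi => ?_
    rw [map_sum, Finsupp.finsetSum_apply]
    refine Finset.sum_eq_zero fun j hj => ?_
    rw [cmp_of_mem h (h.mul _ _ _ _ (cmp_mem h a i) (cmp_mem h b j)), Finsupp.single_apply,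
      if_neg]
    intro he
    apply hm
    rw [← he]
    refine dvd_add ?_ ?_
    · by_contra hc
      exact (Finsupp.mem_support_iff.1 hi) (ha i hc)
    · by_contra hc
      exact (Finsupp.mem_support_iff.1 hj) (hb j hc)
  algebraMap_mem' := by
    intro c m hm
    rw [cmp_of_mem h (algebraMap_mem_gr h c), Finsupp.single_apply, if_neg]
    rintro rfl
    exact hm (dvd_zero r)

theorem mem_BB {h : Gr W} {r : ℤ} {x : A} : x ∈ BB h r ↔ ∀ m, ¬ r ∣ m → cmp h x m = 0 := Iff.rfl

theorem mem_BB_of {h : Gr W} {r n : ℤ} {x : A} (hx : x ∈ W n) (hr : r ∣ n) : x ∈ BB h r := by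
  rw [mem_BB]
  intro m hm
  rw [cmp_of_mem h hx, Finsupp.single_apply, if_neg]
  rintro rfl
  exact hm hr

theorem dvd_of_mem_BB {h : Gr W} {r n : ℤ} {x : A} (hx : x ∈ W n) (h0 : x ≠ 0)
    (hb : x ∈ BB h r) : r ∣ n := by
  by_contra hc
  have := mem_BB.1 hb n hc
  rw [cmp_of_mem h hx, Finsupp.single_eq_same] at this
  exact h0 this
end

theorem pf_WTK (hSL0 : T_SL0) (hGN0 : T_GN0) : T_WTK := by
  intro k _ _ _ W H y w K hy hK r hr
  obtain ⟨p, q, α, β, hpK, hqK, hc⟩ := hK.ex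
  obtain ⟨s, n, hs⟩ := hSL0 k W H y w p q α β hy hc
  have hgr := hy.toGr
  have hp0 : p ≠ 0 := by
    have := hc.ai.ne_zero 0
    simpa using this
  have hq0 : q ≠ 0 := by
    have := hc.ai.ne_zero 1
    simpa using this
  have hrα : r ∣ α := hr α p hpK hc.hp hp0
  have hrβ : r ∣ β := hr β q hqK hc.hq hq0
  have hpf : br p (br q s) = 0 := by
    rw [jac, hc.pq, hs.ps, zero_br, br_zero, add_zero]
  have hfK : br q s ∈ K := hK.mx p q α β hpK hqK hc _ hpf hs.qq
  have hfW : br q s ∈ W (β + n) := hy.pbr _ _ _ _ hc.hq hs.hs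
  have hrn : r ∣ n := by
    have := hr (β + n) _ hfK hfW hs.qs
    exact (dvd_add_right hrβ).1 this
  refine hy.eff r fun j F hF hF0 => ?_
  obtain ⟨N, hN⟩ := hGN0 k W H y w p q s α β n hy hc hs F
  have hsub : Algebra.adjoin k ({g : Pol k 2 | br p g = 0 ∧ br q g = 0} ∪ {H, s}) ≤
      BB hgr r := by
    refine Algebra.adjoin_le ?_
    rintro x (hx | hx)
    · have hxK : x ∈ K := hK.mx p q α β hpK hqK hc x hx.1 hx.2
      show x ∈ BB hgr r
      rw [mem_BB]
      intro m hm
      by_contra h0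
      exact hm (hr m _ (hK.gr hgr x hxK m) (cmp_mem hgr x m) h0)
    · rcases hx with hx | hx
      · rw [hx]
        exact mem_BB_of hy.H0 (dvd_zero r)
      · rw [Set.mem_singleton_iff.1 hx]
        exact mem_BB_of hs.hs hrn
  have hmem := hsub hN
  have hW : (p * br q s) ^ N * F ∈ W (N • (α + (β + n)) + j) :=
    hgr.mul _ _ _ _ (pow_mem_gr hgr (hgr.mul _ _ _ _ hc.hp hfW) N) hF
  have hne : (p * br q s) ^ N * F ≠ 0 :=
    mul_ne_zero (pow_ne_zero _ (mul_ne_zero hp0 hs.qs)) hF0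
  have hdvd := dvd_of_mem_BB hW hne hmem
  have h2 : r ∣ N • (α + (β + n)) := by
    rw [nsmul_eq_mul]
    exact dvd_mul_of_dvd_right (dvd_add hrα (dvd_add hrβ hrn)) _
  exact (dvd_add_right h2).1 hdvd

end Pool.Agent.H69.SYA
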